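import Pool.Agent.Q161.TwoChain2

/-!
MP_28c202_co, Q1: `NE_{2,t}(123)[q] = q^{t^2} c_t(q)`.
-/

set_option autoImplicit false

namespace Pool.Agent.Results.MP_28c202_co.MajorIndexNE2t

open Finset Polynomial Q161.TwoRow

/-- the order of `NE_{2,t}`; the element `x + 1` of `[2t]` is represented by `x`, so that it is
`(i - 1) t + k` with `i = x / t + 1` and `k = x % t + 1` -/
def NEle (t : ℕ) (x y : Fin (2 * t)) : Prop := (y : ℕ) / t ≤ (x : ℕ) / t ∧ (y : ℕ) % t ≤ (x : ℕ) % t

/-- `π` (one-line notation) is a linear extension of `NE_{2,t}` -/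
def IsLinExt (t : ℕ) (π : Equiv.Perm (Fin (2 * t))) : Prop :=
  ∀ a b, NEle t (π a) (π b) → π a ≠ π b → a < b

open Classical in
/-- `NE_{2,t}(123)[q]` -/
noncomputable def NE123 (t : ℕ) : ℤ[X] :=
  ∑ π ∈ univ.filter (fun π : Equiv.Perm (Fin (2 * t)) => IsLinExt t π ∧ Avoids123 π),
    X ^ maj (fun i => ((π i : Fin (2 * t)) : ℕ))

/-- the labelling -/
def E (t : ℕ) : Bool × Fin t ≃ Fin (2 * t) where
  toFun p := ⟨(if p.1 then 0 else t) + (t - 1 - p.2), by
    have := p.2.2
    split_ifs <;> omega⟩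
  invFun x := (decide ((x : ℕ) < t), ⟨if (x : ℕ) < t then t - 1 - x else 2 * t - 1 - x, by
    have := x.2
    split_ifs <;> omega⟩)
  left_inv := by
    rintro ⟨c, k⟩
    have := k.2
    apply Prod.ext
    · cases c
      · simp only [Bool.false_eq_true, if_false]
        rw [decide_eq_false_iff_not]; omega
      · simp only [if_true]
        rw [decide_eq_true_iff]; omega
    · apply Fin.ext
      cases c
      · simp only [Bool.false_eq_true, if_false]
        rw [if_neg (by omega)]; omega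
      · simp only [if_true]
        rw [if_pos (by omega)]; omega
  right_inv := by
    intro x
    have := x.2
    apply Fin.ext
    by_cases h : (x : ℕ) < t
    · simp only [h, decide_true, if_true]
      omega
    · simp only [h, decide_false, if_false, Bool.false_eq_true]
      omega

theorem E_val (t : ℕ) (x : Fin (2 * t)) :
    (x : ℕ) = (if ((E t).symm x).1 then 0 else t) + (t - 1 - ((E t).symm x).2) := by
  have h : (E t) ((E t).symm x) = x := Equiv.apply_symm_apply _ _
  exact (congrArg Fin.val h).symm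

theorem div_small {t x : ℕ} (h : x < t) : x / t = 0 ∧ x % t = x :=
  ⟨Nat.div_eq_of_lt h, Nat.mod_eq_of_lt h⟩

theorem div_large {t x : ℕ} (h : ¬ x < t) (h2 : x < 2 * t) : x / t = 1 ∧ x % t = x - t := by
  obtain ⟨y, rfl⟩ : ∃ y, x = y + t := ⟨x - t, by omega⟩
  have ht : 0 < t := by omega
  rw [Nat.add_div_right _ ht, Nat.add_mod_right, Nat.div_eq_of_lt (by omega),
    Nat.mod_eq_of_lt (by omega)]
  exact ⟨rfl, by omega⟩

theorem le_iff (t : ℕ) (x y : Fin (2 * t)) :
    (E t).symm x ≤ (E t).symm y ↔ NEle t x y := by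
  have hx := x.2
  have hy := y.2
  have e1 : (E t).symm x = (decide ((x : ℕ) < t), ⟨if (x : ℕ) < t then t - 1 - x else 2 * t - 1 - x,
    by split_ifs <;> omega⟩) := rfl
  have e2 : (E t).symm y = (decide ((y : ℕ) < t), ⟨if (y : ℕ) < t then t - 1 - y else 2 * t - 1 - y,
    by split_ifs <;> omega⟩) := rfl
  rw [e1, e2, Prod.mk_le_mk, Fin.mk_le_mk]
  unfold NEle
  by_cases h1 : (x : ℕ) < t <;> by_cases h2 : (y : ℕ) < t
  · rw [(div_small h1).1, (div_small h1).2, (div_small h2).1, (div_small h2).2]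
    simp only [h1, h2, le_refl, true_and, if_true]
    omega
  · rw [(div_small h1).1, (div_small h1).2, (div_large h2 hy).1, (div_large h2 hy).2]
    simp only [h1, h2, decide_true, decide_false]
    constructor
    · rintro ⟨h, _⟩
      exact absurd h (by decide)
    · rintro ⟨h, _⟩
      omega
  · rw [(div_large h1 hx).1, (div_large h1 hx).2, (div_small h2).1, (div_small h2).2]
    simp only [h1, h2, decide_true, decide_false, if_true, if_false]
    constructor
    · rintro ⟨_, h⟩
      exact ⟨by omega, by omega⟩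
    · rintro ⟨_, h⟩
      exact ⟨by decide, by omega⟩
  · rw [(div_large h1 hx).1, (div_large h1 hx).2, (div_large h2 hy).1, (div_large h2 hy).2]
    simp only [h1, h2, decide_false, le_refl, true_and, if_false]
    omega

theorem linExt_iff (t : ℕ) (π : Equiv.Perm (Fin (2 * t))) : IsLinExt t π ↔ LE (E t) π := by
  unfold IsLinExt Q161.TwoRow.LE
  constructor
  · intro h a b hab
    rw [le_iff] at hab
    by_cases hne : π a = π b
    · exact le_of_eq (π.injective hne)
    · exact le_of_lt (h a b hab hne)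
  · intro h a b hab hne
    rw [← le_iff] at hab
    exact lt_of_le_of_ne (h a b hab) (fun he => hne (by rw [he]))

/-- three elements: two of them are in the same chain, which is decreasing -/
theorem avoids (t : ℕ) (π : Equiv.Perm (Fin (2 * t))) (h : LE (E t) π) : Avoids123 π := by
  rintro ⟨a, b, c, hab, hbc, h1, h2⟩
  have key : ∀ x y : Fin (2 * t), x < y → ((E t).symm (π x)).1 = ((E t).symm (π y)).1 →
      π y < π x := by
    intro x y hxy hc
    have h3 : ¬ (E t).symm (π y) ≤ (E t).symm (π x) := fun h3 => absurd (h y x h3) (not_le.2 hxy)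
    have h4 : ((E t).symm (π x)).2 < ((E t).symm (π y)).2 := by
      by_contra hc'
      rw [not_lt] at hc'
      exact h3 ⟨le_of_eq hc.symm, hc'⟩
    rw [Fin.lt_def] at h4 ⊢
    rw [E_val t (π y), E_val t (π x), hc]
    have := ((E t).symm (π y)).2.2
    omega
  have k1 := key a b hab
  have k2 := key b c hbc
  have k3 := key a c (hab.trans hbc)
  have h3 := h1.trans h2
  rcases Bool.eq_false_or_eq_true ((E t).symm (π a)).1 with ea | ea <;>
    rcases Bool.eq_false_or_eq_true ((E t).symm (π b)).1 with eb | eb <;>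
    rcases Bool.eq_false_or_eq_true ((E t).symm (π c)).1 with ec | ec <;>
    rw [ea, eb] at k1 <;> rw [eb, ec] at k2 <;> rw [ea, ec] at k3 <;>
    first
      | exact absurd (k1 rfl) (not_lt.2 h1.le)
      | exact absurd (k2 rfl) (not_lt.2 h2.le)
      | exact absurd (k3 rfl) (not_lt.2 h3.le)

theorem maj_pi (t : ℕ) (π : Equiv.Perm (Fin (2 * t))) (h : LE (E t) π) :
    maj (fun i => ((π i : Fin (2 * t)) : ℕ)) =
      ∑ i ∈ range (2 * t - 1), if ¬ (i ∈ pos (E t) π ∧ i + 1 ∉ pos (E t) π) then i + 1 else 0 := by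
  classical
  apply maj_eq
  intro i hi
  have hbal := bal_pos h
  have hs1 := one_succ (pos (E t) π) i
  have b1 := hbal (i + 1) (by omega)
  have b2 := hbal (i + 1 + 1) (by omega)
  have hs2 := one_succ (pos (E t) π) (i + 1)
  have v1 := E_val t (π ⟨i, by omega⟩)
  have v2 := E_val t (π ⟨i + 1, hi⟩)
  have l1 := ((E t).symm (π ⟨i, by omega⟩)).2.2
  have l2 := ((E t).symm (π ⟨i + 1, hi⟩)).2.2
  by_cases h1 : i ∈ pos (E t) π <;> by_cases h2 : i + 1 ∈ pos (E t) π
  · obtain ⟨a1, a2⟩ := val_true h ⟨i, by omega⟩ h1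
    obtain ⟨c1, c2⟩ := val_true h ⟨i + 1, hi⟩ h2
    rw [if_pos h1] at hs1
    rw [if_pos h2] at hs2
    rw [if_pos a1] at v1; rw [if_pos c1] at v2
    simp only at v1 v2 a2 c2
    simp only [h1, h2, not_true, and_false, not_false_iff, iff_true]
    omega
  · obtain ⟨a1, a2⟩ := val_true h ⟨i, by omega⟩ h1
    obtain ⟨c1, c2⟩ := val_false h ⟨i + 1, hi⟩ h2
    rw [if_pos h1] at hs1
    rw [if_neg h2] at hs2
    rw [if_pos a1] at v1; rw [if_neg (by rw [c1]; exact Bool.false_ne_true)] at v2
    simp only at v1 v2 a2 c2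
    simp only [h1, h2, not_true, and_self, not_false_iff, iff_false]
    omega
  · obtain ⟨a1, a2⟩ := val_false h ⟨i, by omega⟩ h1
    obtain ⟨c1, c2⟩ := val_true h ⟨i + 1, hi⟩ h2
    rw [if_neg h1] at hs1
    rw [if_pos h2] at hs2
    rw [if_neg (by rw [a1]; exact Bool.false_ne_true)] at v1; rw [if_pos c1] at v2
    simp only at v1 v2 a2 c2
    simp only [h1, h2, not_true, and_self, not_false_iff, iff_true]
    omega
  · obtain ⟨a1, a2⟩ := val_false h ⟨i, by omega⟩ h1
    obtain ⟨c1, c2⟩ := val_false h ⟨i + 1, hi⟩ h2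
    rw [if_neg h1] at hs1
    rw [if_neg h2] at hs2
    rw [if_neg (by rw [a1]; exact Bool.false_ne_true)] at v1
    rw [if_neg (by rw [c1]; exact Bool.false_ne_true)] at v2
    simp only at v1 v2 a2 c2
    simp only [h1, h2, false_and, not_false_iff, iff_true]
    omega

/-- For every `t ≥ 1`, `NE_{2,t}(123)[q] = q^{t^2} c_t(q)`. -/
theorem result (t : ℕ) (ht : 1 ≤ t) : NE123 t = X ^ (t ^ 2) * cPoly t := by
  classical
  have h1 : NE123 t = ∑ π ∈ univ.filter (fun π => LE (E t) π),
      (X : ℤ[X]) ^ maj (fun i => ((π i : Fin (2 * t)) : ℕ)) := by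
    unfold NE123
    apply sum_congr
    · apply filter_congr
      intro π _
      rw [linExt_iff]
      exact ⟨fun h => h.1, fun h => ⟨h, avoids t π h⟩⟩
    · intro π _; rfl
  have h2 := sum_LE (E := E t) rfl
    (fun π => (X : ℤ[X]) ^ maj (fun i => ((π i : Fin (2 * t)) : ℕ)))
    (fun S => (X : ℤ[X]) ^ (∑ i ∈ range (2 * t - 1), if ¬ (i ∈ S ∧ i + 1 ∉ S) then i + 1 else 0))
    (fun π h => by simp only [maj_pi t π h])
  rw [h1, h2]
  apply sum_pow_flip t (t ^ 2) _ (majS (2 * t)) (fun q => rfl)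
  intro S hS
  have h3 := sum_split (2 * t) (fun i => i ∈ S ∧ i + 1 ∉ S)
  have h4 := gauss (2 * t - 1)
  rw [show 2 * t - 1 + 1 = 2 * t by omega] at h4
  unfold majS
  rw [h3]
  obtain ⟨p, rfl⟩ : ∃ p, t = p + 1 := ⟨t - 1, by omega⟩
  rw [show p + 1 - 1 = p by omega]
  rw [show 2 * (p + 1) - 1 = 2 * p + 1 by omega] at h4 ⊢
  nlinarith

end Pool.Agent.Results.MP_28c202_co.MajorIndexNE2t
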